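import Pool.Agent.R921.GRT.Free

/-! MP_446dfa_ag: any number of elements of Drinfeld's Lie algebra `𝔤𝔯𝔱₁`, homogeneous of large weight
and linearly independent in `D^r 𝔤𝔯𝔱₁ / D^{R+1} 𝔤𝔯𝔱₁` with `R < 2r`, generate a free Lie algebra. -/

set_option autoImplicit false

namespace Pool.Agent.Results.MP_446dfa_ag.DepthWindowFreeness

open Pool.Agent.H777R4.DM

attribute [local instance 100] LieRing.ofAssociativeRing

/-- Evaluation `ψ ↦ ψ(a, b)` of a noncommutative polynomial `ψ ∈ ℚ⟨x₀, x₁⟩` in a `ℚ`-algebra `B`. -/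
noncomputable def ev {B : Type} [Ring B] [Algebra ℚ B] (a b : B) : A →ₐ[ℚ] B :=
  MonoidAlgebra.lift ℚ B (FreeMonoid (Fin 2)) (FreeMonoid.lift ![a, b])

/-- The infinitesimal braid relations on four strands for elements `t i j` (`i ≠ j`) of a ring:
`t i j = t j i`, `[t i j, t k l] = 0` and `[t i j, t i k + t j k] = 0` for distinct indices. -/
structure InfBraid {B : Type} [Ring B] (t : Fin 4 → Fin 4 → B) : Prop where
  symm : ∀ i j, t i j = t j i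
  comm : ∀ i j k l, i ≠ j → i ≠ k → i ≠ l → j ≠ k → j ≠ l → k ≠ l → t i j * t k l = t k l * t i j
  tri : ∀ i j k, i ≠ j → i ≠ k → j ≠ k → t i j * (t i k + t j k) = (t i k + t j k) * t i j

/-- Drinfeld's Lie algebra `𝔤𝔯𝔱₁`: the Lie polynomials `ψ` in `x₀`, `x₁` with
* `ψ(b, a) = -ψ(a, b)`;
* `ψ(a, b) + ψ(b, c) + ψ(c, a) = 0` if `a + b + c = 0`;
* `[b, ψ(a, b)] + [c, ψ(a, c)] = 0` if `a + b + c = 0`;
* the pentagon equation
  `ψ(t₁₂, t₂₃ + t₂₄) + ψ(t₁₃ + t₂₃, t₃₄) = ψ(t₂₃, t₃₄) + ψ(t₁₂ + t₁₃, t₂₄ + t₃₄) + ψ(t₁₂, t₂₃)`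
  for all elements that satisfy the infinitesimal braid relations (the indices run from `0` below).
All equations are required in all associative `ℚ`-algebras. -/
structure IsGRT (ψ : A) : Prop where
  mem : ψ ∈ LieX
  anti : ∀ (B : Type) [Ring B] [Algebra ℚ B] (a b : B), ev b a ψ = - ev a b ψ
  hexagon : ∀ (B : Type) [Ring B] [Algebra ℚ B] (a b c : B), a + b + c = 0 →
    ev a b ψ + ev b c ψ + ev c a ψ = 0
  special : ∀ (B : Type) [Ring B] [Algebra ℚ B] (a b c : B), a + b + c = 0 →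
    (b * ev a b ψ - ev a b ψ * b) + (c * ev a c ψ - ev a c ψ * c) = 0
  pentagon : ∀ (B : Type) [Ring B] [Algebra ℚ B] (t : Fin 4 → Fin 4 → B), InfBraid t →
    ev (t 0 1) (t 1 2 + t 1 3) ψ + ev (t 0 2 + t 1 2) (t 2 3) ψ =
      ev (t 1 2) (t 2 3) ψ + ev (t 0 1 + t 0 2) (t 1 3 + t 2 3) ψ + ev (t 0 1) (t 1 2) ψ

lemma isGRT_of {ψ : A} (h : IsGRT ψ) : Pool.Agent.R921.GRT.IsGRT ψ :=
  ⟨h.mem, h.anti, h.hexagon, h.special, fun B _ _ t ht => h.pentagon B t ⟨ht.symm, ht.comm, ht.tri⟩⟩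

/-- Let `1 ≤ r`, `R < 2r` and let `W` be a finite set of weights `w` with `|W| R < w`.  Let
`ψ₁, …, ψₙ ∈ 𝔤𝔯𝔱₁` be homogeneous of weights in `W`, of depth `≥ r`, such that no nonzero linear
combination has depth `> R`.  Then there is an injective linear map `φ` on `ℚ⟨X₁, …, Xₙ⟩` with
`φ Xᵢ = ψᵢ` carrying the bracket of the free Lie algebra on `X₁, …, Xₙ` to the Ihara bracket. -/
theorem result (n r R : ℕ) (W : Finset ℕ) (hr : 1 ≤ r) (hR : R < 2 * r) (hW : ∀ w ∈ W, W.card * R < w)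
    (ψ : Fin n → A) (wt : Fin n → ℕ) (hwt : ∀ i, wt i ∈ W) (hgrt : ∀ i, IsGRT (ψ i))
    (hψ : ∀ i u, co (ψ i) u ≠ 0 → u.length = wt i ∧ r ≤ u.count 1)
    (hind : ∀ c : Fin n → ℚ, (∀ u, u.count 1 ≤ R → co (∑ i, c i • ψ i) u = 0) → c = 0) :
    ∃ φ : Al (Fin n) →ₗ[ℚ] A, Function.Injective φ ∧ (∀ i, φ (wd [i]) = ψ i) ∧
      ∀ P ∈ LieN n, ∀ Q ∈ LieN n, φ (P * Q - Q * P) = ihara (φ P) (φ Q) :=
  ⟨PhiN ψ,
    Pool.Agent.R921.GRT.grt_case hr hR hW hwt (fun i => isGRT_of (hgrt i))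
      (fun i u hu => (hψ i u hu).1) (fun i u hu => (hψ i u hu).2) hind,
    (Pool.Agent.H358R3.DM.taskFinalN n ψ).1, (Pool.Agent.H358R3.DM.taskFinalN n ψ).2⟩

end Pool.Agent.Results.MP_446dfa_ag.DepthWindowFreeness
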